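import Pool.Agent.Work.MP_db9399_lh.Interface
import Pool.Agent.Work.MP_db9399_bg.Base

/-!
# THEOREM LCH: counts of labels (helper35)
-/

set_option autoImplicit false

namespace Pool.Agent.Work.MP_db9399_lh

open Finset Classical
open Pool.Agent.Work.MP_db9399_all (nb)
open Pool.Agent.Work.MP_db9399_bg (den cl Lbl c3f c3 rs rs_symm eR)

universe u

section sums
variable {l : ℕ}

theorem cast_ne {l : ℕ} (i j : ℕ) (hij : i < j) (hj : j < 2 * l + 1) :
    ((i : ℕ) : ZMod (2 * l + 1)) ≠ ((j : ℕ) : ZMod (2 * l + 1)) := by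
  intro h
  have h1 := (ZMod.natCast_eq_natCast_iff' i j (2 * l + 1)).mp h
  rw [Nat.mod_eq_of_lt (by omega), Nat.mod_eq_of_lt hj] at h1
  omega

theorem ne01 (hl : 1 ≤ l) : (0 : ZMod (2 * l + 1)) ≠ 1 := by
  simpa using cast_ne (l := l) 0 1 (by omega) (by omega)
theorem ne03 (hl : 2 ≤ l) : (0 : ZMod (2 * l + 1)) ≠ 3 := by
  simpa using cast_ne (l := l) 0 3 (by omega) (by omega)
theorem ne13 (hl : 2 ≤ l) : (1 : ZMod (2 * l + 1)) ≠ 3 := by
  simpa using cast_ne (l := l) 1 3 (by omega) (by omega)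
theorem ne04 (hl : 2 ≤ l) : (0 : ZMod (2 * l + 1)) ≠ 4 := by
  simpa using cast_ne (l := l) 0 4 (by omega) (by omega)
theorem ne14 (hl : 2 ≤ l) : (1 : ZMod (2 * l + 1)) ≠ 4 := by
  simpa using cast_ne (l := l) 1 4 (by omega) (by omega)
theorem ne34 (hl : 2 ≤ l) : (3 : ZMod (2 * l + 1)) ≠ 4 := by
  simpa using cast_ne (l := l) 3 4 (by omega) (by omega)
theorem ne05 (hl : 3 ≤ l) : (0 : ZMod (2 * l + 1)) ≠ 5 := by
  simpa using cast_ne (l := l) 0 5 (by omega) (by omega)
theorem ne15 (hl : 3 ≤ l) : (1 : ZMod (2 * l + 1)) ≠ 5 := by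
  simpa using cast_ne (l := l) 1 5 (by omega) (by omega)
theorem ne35 (hl : 3 ≤ l) : (3 : ZMod (2 * l + 1)) ≠ 5 := by
  simpa using cast_ne (l := l) 3 5 (by omega) (by omega)
theorem ne45 (hl : 3 ≤ l) : (4 : ZMod (2 * l + 1)) ≠ 5 := by
  simpa using cast_ne (l := l) 4 5 (by omega) (by omega)

/-- the third element of `ZMod 3` -/
theorem third (p j q : ZMod 3) (h : p ≠ j) : (q ≠ p ∧ q ≠ j) ↔ q = -(p + j) := by
  revert p j q
  decide

theorem two_cases (p j : ZMod 3) (h : p ≠ j) : j = p + 1 ∨ j = p + 2 := by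
  revert p j
  decide

theorem not_both (p j : ZMod 3) : ¬ (j = p + 1 ∧ j = p + 2) := by
  revert p j
  decide

end sums

section cores
variable {l S : ℕ}

theorem rf_symm {c c' : Cr l S} (h : rf c c') : rf c' c := ⟨h.1.symm, rs_symm h.2⟩

theorem rx_symm {c c' : Cr l S} (h : rx c c') : rx c' c := ⟨(add_comm _ _).trans h.1, h.2.symm⟩

theorem rr_symm {c c' : Cr l S} (h : rr c c') : rr c' c :=
  h.elim (fun h => Or.inl (rf_symm h)) (fun h => Or.inr (rx_symm h))

theorem tj_symm {ν : ℕ} {j : ZMod 3} {c c' : Cr l S} (h : tj ν j c c') : tj ν j c' c := by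
  obtain ⟨h1, h2, h3, h4⟩ := h
  refine ⟨h2, h1, by rw [add_comm c'.2.2 c.2.2]; exact h3, ?_⟩
  rcases h4 with ⟨h5, h6⟩ | ⟨h5, h6⟩
  · exact Or.inl ⟨h5.symm, (add_comm _ _).trans h6⟩
  · refine Or.inr ⟨h5.symm, ?_⟩
    rw [add_comm c'.1 c.1, ← h5]
    exact h6

theorem ty_symm {ν : ℕ} {τ : Option (ZMod 3)} {c c' : Cr l S} (h : ty ν τ c c') :
    ty ν τ c' c := by
  rcases h with ⟨j, h1, h2⟩ | ⟨h1, h2, h3⟩
  · exact Or.inl ⟨j, h1, tj_symm h2⟩
  · exact Or.inr ⟨h1, fun h => h2 (rr_symm h), fun j h => h3 j (tj_symm h)⟩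

theorem rf_not_rx (hl : 2 ≤ l) {c c' : Cr l S} (h : rf c c') : ¬ rx c c' := by
  intro h'
  rcases h.2 with h1 | h1
  · exact ne03 hl (h1.symm.trans h'.1)
  · exact ne13 hl (h1.symm.trans h'.1)

/-- the sum of the labels `lam` for an edge of type `tj` is 4 or 5 -/
theorem tj_sum {ν : ℕ} {j : ZMod 3} {c c' : Cr l S} (h : tj ν j c c') :
    c.1 + c'.1 = 4 ∨ c.1 + c'.1 = 5 := by
  rcases h.2.2.2 with h1 | h1
  · exact Or.inl h1.2
  · exact h1.2.elim (fun h => Or.inl h.1) (fun h => Or.inr h.1)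

theorem tj_not_rr (hl : 3 ≤ l) {ν : ℕ} {j : ZMod 3} {c c' : Cr l S} (h : tj ν j c c') :
    ¬ rr c c' := by
  intro h'
  have h3 := tj_sum h
  have h4 : c.1 + c'.1 = 0 ∨ c.1 + c'.1 = 1 ∨ c.1 + c'.1 = 3 := by
    rcases h' with h' | h'
    · exact h'.2.elim Or.inl (fun h => Or.inr (Or.inl h))
    · exact Or.inr (Or.inr h'.1)
  rcases h3 with h3 | h3 <;> rw [h3] at h4
  · rcases h4 with h4 | h4 | h4
    · exact ne04 (by omega) h4.symm
    · exact ne14 (by omega) h4.symm
    · exact ne34 (by omega) h4.symm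
  · rcases h4 with h4 | h4 | h4
    · exact ne05 hl h4.symm
    · exact ne15 hl h4.symm
    · exact ne35 hl h4.symm

theorem tj_unique (hl : 3 ≤ l) {ν : ℕ} {j j' : ZMod 3} {c c' : Cr l S} (h : tj ν j c c')
    (h' : tj ν j' c c') : j = j' := by
  obtain ⟨h1, h2, h3, h4⟩ := h
  obtain ⟨h1', h2', h3', h4'⟩ := h'
  by_cases hc : c.2.1 = c'.2.1
  · have e1 : (c.1 + c'.1 = 4 ∧ j = c.2.1 + 1) ∨ (c.1 + c'.1 = 5 ∧ j = c.2.1 + 2) :=
      h4.elim (fun h => absurd hc h.1) (fun h => h.2)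
    have e2 : (c.1 + c'.1 = 4 ∧ j' = c.2.1 + 1) ∨ (c.1 + c'.1 = 5 ∧ j' = c.2.1 + 2) :=
      h4'.elim (fun h => absurd hc h.1) (fun h => h.2)
    rcases e1 with ⟨e3, e4⟩ | ⟨e3, e4⟩ <;> rcases e2 with ⟨e5, e6⟩ | ⟨e5, e6⟩
    · rw [e4, e6]
    · exact absurd (e3.symm.trans e5) (ne45 hl)
    · exact absurd (e5.symm.trans e3) (ne45 hl)
    · rw [e4, e6]
  · generalize c.2.1 = p at *
    generalize c'.2.1 = q at *
    clear h3 h3' h4 h4'
    revert p q j j'
    decide

/-! ### Counts -/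

theorem card_zmod (n : ℕ) : Fintype.card (ZMod (n + 1)) = n + 1 := ZMod.card (n + 1)

theorem card_rf (hl : 1 ≤ l) (c : Cr l S) :
    (univ.filter (fun c' : Cr l S => rf c c')).card = 2 * (S + 1) := by
  have h : (univ.filter (fun c' : Cr l S => rf c c')) =
      ({-c.1, 1 - c.1} : Finset (ZMod (2 * l + 1))) ×ˢ (({c.2.1} : Finset (ZMod 3)) ×ˢ univ) := by
    ext c'
    simp only [mem_filter, mem_univ, true_and, mem_product, mem_insert, mem_singleton, and_true]
    constructor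
    · rintro ⟨h1, h2 | h2⟩
      · exact ⟨Or.inl (eq_neg_of_add_eq_zero_right h2), h1.symm⟩
      · exact ⟨Or.inr (eq_sub_of_add_eq' h2), h1.symm⟩
    · rintro ⟨h1 | h1, h2⟩
      · exact ⟨h2.symm, Or.inl (by rw [h1]; ring)⟩
      · exact ⟨h2.symm, Or.inr (by rw [h1]; ring)⟩
  rw [h, card_product, card_product, card_pair, card_singleton, card_univ, card_zmod]
  · ring
  · intro h1
    apply ne01 hl
    have : (1 : ZMod (2 * l + 1)) = (1 - c.1) + c.1 := by ring
    rw [this, ← h1]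
    ring

theorem card_rx (c : Cr l S) (j : Option (ZMod 3)) :
    (univ.filter (fun c' : Cr l S => rx c c' ∧ j ≠ some c'.2.1)).card = np j := by
  have h : (univ.filter (fun c' : Cr l S => rx c c' ∧ j ≠ some c'.2.1)) =
      ({3 - c.1} : Finset (ZMod (2 * l + 1))) ×ˢ
        ((univ.filter (fun p : ZMod 3 => j ≠ some p)) ×ˢ ({c.2.2} : Finset (ZMod (S + 1)))) := by
    ext c'
    simp only [mem_filter, mem_univ, true_and, mem_product, mem_singleton]
    constructor
    · rintro ⟨⟨h1, h2⟩, h3⟩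
      exact ⟨by rw [← h1]; ring, h3, h2.symm⟩
    · rintro ⟨h1, h2, h3⟩
      exact ⟨⟨by rw [h1]; ring, h3.symm⟩, h2⟩
  rw [h, card_product, card_product, card_singleton, card_singleton, one_mul, mul_one]
  unfold np
  cases j with
  | none => simp
  | some j =>
    have h2 : (univ.filter (fun p : ZMod 3 => some j ≠ some p)) = univ.erase j := by
      ext p
      simp [eq_comm]
    rw [h2, card_erase_of_mem (mem_univ _)]
    simp

theorem card_rf_t (hl : 1 ≤ l) (c : Cr l S) (τ : Option (ZMod 3)) (hc : τ ≠ some c.2.1) :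
    (univ.filter (fun c' : Cr l S => rf c c' ∧ τ ≠ some c'.2.1)).card = 2 * (S + 1) := by
  rw [← card_rf hl c]
  congr 1
  ext c'
  simp only [mem_filter, mem_univ, true_and]
  constructor
  · exact fun h => h.1
  · exact fun h => ⟨h, by rw [← h.1]; exact hc⟩

/-- degree of the reserve of the rounds of type `τ` -/
theorem card_rr (hl : 2 ≤ l) (c : Cr l S) (τ : Option (ZMod 3)) (hc : τ ≠ some c.2.1) :
    (univ.filter (fun c' : Cr l S => rr c c' ∧ τ ≠ some c'.2.1)).card =
      2 * (S + 1) + np τ := by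
  have h : (univ.filter (fun c' : Cr l S => rr c c' ∧ τ ≠ some c'.2.1)) =
      (univ.filter (fun c' : Cr l S => rf c c' ∧ τ ≠ some c'.2.1)) ∪
      (univ.filter (fun c' : Cr l S => rx c c' ∧ τ ≠ some c'.2.1)) := by
    ext c'
    simp only [mem_filter, mem_univ, true_and, mem_union]
    unfold rr
    tauto
  rw [h, card_union_of_disjoint, card_rf_t (by omega) c τ hc, card_rx]
  rw [disjoint_left]
  intro c' h1 h2
  simp only [mem_filter, mem_univ, true_and] at h1 h2
  exact rf_not_rx hl h1.1 h2.1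

theorem card_rr_none (hl : 2 ≤ l) (c : Cr l S) :
    (univ.filter (fun c' : Cr l S => rr c c')).card = 2 * (S + 1) + 3 := by
  have h := card_rr hl c none (by simp)
  simpa [np] using h

/-- the subtype version -/
theorem card_rr_sub (hl : 2 ≤ l) (τ : Option (ZMod 3)) (c : {c : Cr l S // τ ≠ some c.2.1}) :
    (univ.filter (fun c' : {c : Cr l S // τ ≠ some c.2.1} => rr c.1 c'.1)).card =
      2 * (S + 1) + np τ := by
  rw [← card_rr hl c.1 τ c.2]
  refine card_bij (fun a _ => a.1) ?_ ?_ ?_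
  · intro a ha
    simp only [mem_filter, mem_univ, true_and] at ha ⊢
    exact ⟨ha, a.2⟩
  · intro a _ b _ h
    exact Subtype.ext h
  · intro b hb
    simp only [mem_filter, mem_univ, true_and] at hb
    exact ⟨⟨b, hb.2⟩, by simp only [mem_filter, mem_univ, true_and]; exact hb.1, rfl⟩

theorem card_sub (ν : ℕ) (hν : ν ≤ S) (s : ZMod (S + 1)) :
    (univ.filter (fun s' : ZMod (S + 1) => ν ≤ (s + s').val)).card = S + 1 - ν := by
  have h1 : (univ.filter (fun s' : ZMod (S + 1) => ν ≤ (s + s').val)).card =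
      (univ.filter (fun x : ZMod (S + 1) => ν ≤ x.val)).card := by
    refine card_bij (fun a _ => s + a) ?_ ?_ ?_
    · intro a ha
      simp only [mem_filter, mem_univ, true_and] at ha ⊢
      exact ha
    · intro a _ b _ h
      exact add_left_cancel h
    · intro b hb
      simp only [mem_filter, mem_univ, true_and] at hb
      exact ⟨b - s, by simp only [mem_filter, mem_univ, true_and]; simpa using hb, by ring⟩
  rw [h1]
  have h2 : (univ.filter (fun x : ZMod (S + 1) => ν ≤ x.val)).card =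
      (univ.filter (fun x : Fin (S + 1) => ν ≤ x.val)).card := rfl
  rw [h2]
  have h3 : (univ.filter (fun x : Fin (S + 1) => ν ≤ x.val)) =
      Finset.Ici (⟨ν, by omega⟩ : Fin (S + 1)) := by
    ext x
    simp [Fin.le_def]
  rw [h3, Fin.card_Ici]

/-- degree of the edges of type `some j` -/
theorem card_tj (ν : ℕ) (hν : ν ≤ S) (j : ZMod 3) (c : Cr l S) (hc : c.2.1 ≠ j) :
    (univ.filter (fun c' : Cr l S => tj ν j c c')).card = 2 * (S + 1 - ν) := by
  have h : (univ.filter (fun c' : Cr l S => tj ν j c c')) =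
      (({4 - c.1} : Finset (ZMod (2 * l + 1))) ×ˢ
        (({-(c.2.1 + j)} : Finset (ZMod 3)) ×ˢ
          (univ.filter (fun s' : ZMod (S + 1) => ν ≤ (c.2.2 + s').val)))) ∪
      (({if j = c.2.1 + 1 then 4 - c.1 else 5 - c.1} : Finset (ZMod (2 * l + 1))) ×ˢ
        (({c.2.1} : Finset (ZMod 3)) ×ˢ
          (univ.filter (fun s' : ZMod (S + 1) => ν ≤ (c.2.2 + s').val)))) := by
    ext c'
    simp only [mem_filter, mem_univ, true_and, mem_product, mem_singleton, mem_union]
    constructor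
    · rintro ⟨h1, h2, h3, h4 | h4⟩
      · refine Or.inl ⟨by rw [← h4.2]; ring, ?_, h3⟩
        exact (third c.2.1 j c'.2.1 hc).mp ⟨fun h => h4.1 h.symm, h2⟩
      · refine Or.inr ⟨?_, h4.1.symm, h3⟩
        rcases h4.2 with h5 | h5
        · rw [if_pos h5.2, ← h5.1]; ring
        · rw [if_neg (fun h => not_both c.2.1 j ⟨h, h5.2⟩), ← h5.1]; ring
    · rintro (⟨h1, h2, h3⟩ | ⟨h1, h2, h3⟩)
      · have h4 := (third c.2.1 j c'.2.1 hc).mpr h2
        exact ⟨hc, h4.2, h3, Or.inl ⟨fun h => h4.1 h.symm, by rw [h1]; ring⟩⟩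
      · refine ⟨hc, by rw [h2]; exact hc, h3, Or.inr ⟨h2.symm, ?_⟩⟩
        by_cases h5 : j = c.2.1 + 1
        · rw [if_pos h5] at h1
          exact Or.inl ⟨by rw [h1]; ring, h5⟩
        · rw [if_neg h5] at h1
          exact Or.inr ⟨by rw [h1]; ring, (two_cases c.2.1 j hc).resolve_left h5⟩
  rw [h, card_union_of_disjoint, card_product, card_product, card_product, card_product,
    card_singleton, card_singleton, card_singleton, card_singleton, card_sub ν hν]
  · ring
  · rw [disjoint_left]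
    intro c' h1 h2
    simp only [mem_product, mem_singleton] at h1 h2
    have h3 := (third c.2.1 j c'.2.1 hc).mpr h1.2.1
    exact h3.1 h2.2.1

theorem card_tj_zero (ν : ℕ) (j : ZMod 3) (c : Cr l S) (hc : c.2.1 = j) :
    (univ.filter (fun c' : Cr l S => tj ν j c c')).card = 0 := by
  rw [card_eq_zero, filter_eq_empty_iff]
  exact fun c' _ h => h.1 hc

theorem card_core : Fintype.card (Cr l S) = (2 * l + 1) * (3 * (S + 1)) := by
  rw [Fintype.card_prod, Fintype.card_prod, card_zmod, ZMod.card, card_zmod]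

/-- degree of the edges of type `none` -/
theorem card_none (hl : 3 ≤ l) (ν : ℕ) (hν : ν ≤ S) (c : Cr l S) :
    (univ.filter (fun c' : Cr l S => ty ν none c c')).card + (2 * (S + 1) + 3) +
      4 * (S + 1 - ν) = (2 * l + 1) * (3 * (S + 1)) := by
  have h0 : (univ.filter (fun c' : Cr l S => ty ν none c c')) =
      univ \ ((univ.filter (fun c' : Cr l S => rr c c')) ∪
        (univ : Finset (ZMod 3)).biUnion
          (fun j => univ.filter (fun c' : Cr l S => tj ν j c c'))) := by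
    ext c'
    simp only [mem_filter, mem_univ, true_and, mem_sdiff, mem_union, mem_biUnion, ty, not_or,
      not_exists]
    constructor
    · rintro (⟨j, h1, h2⟩ | h1)
      · exact absurd h1 (by simp)
      · exact h1
    · intro h1
      exact Or.inr h1
  have h1 : ((univ : Finset (ZMod 3)).biUnion
      (fun j => univ.filter (fun c' : Cr l S => tj ν j c c'))).card = 4 * (S + 1 - ν) := by
    rw [card_biUnion]
    · have h2 : ∀ j : ZMod 3, (univ.filter (fun c' : Cr l S => tj ν j c c')).card =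
          if j = c.2.1 then 0 else 2 * (S + 1 - ν) := by
        intro j
        by_cases h : j = c.2.1
        · rw [if_pos h, card_tj_zero ν j c h.symm]
        · rw [if_neg h, card_tj ν hν j c (fun h' => h h'.symm)]
      simp only [h2]
      rw [Finset.sum_ite, sum_const_zero, zero_add, sum_const, filter_not, filter_eq',
        if_pos (mem_univ _), card_sdiff_of_subset (subset_univ _), card_singleton, card_univ,
        ZMod.card, smul_eq_mul]
      ring
    · intro j _ j' _ hjj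
      rw [Function.onFun, disjoint_left]
      intro c' h1 h2
      simp only [mem_filter, mem_univ, true_and] at h1 h2
      exact hjj (tj_unique hl h1 h2)
  have h2 : Disjoint (univ.filter (fun c' : Cr l S => rr c c'))
      ((univ : Finset (ZMod 3)).biUnion
        (fun j => univ.filter (fun c' : Cr l S => tj ν j c c'))) := by
    rw [disjoint_left]
    intro c' h1 h2
    simp only [mem_filter, mem_univ, true_and, mem_biUnion] at h1 h2
    obtain ⟨j, hj⟩ := h2
    exact tj_not_rr hl hj h1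
  have h3 := card_sdiff_add_card_eq_card (subset_univ ((univ.filter (fun c' : Cr l S => rr c c')) ∪
        (univ : Finset (ZMod 3)).biUnion
          (fun j => univ.filter (fun c' : Cr l S => tj ν j c c'))))
  rw [← h0, card_union_of_disjoint h2, h1, card_rr_none (by omega) c, card_univ, card_core] at h3
  omega

/-- proportion of the edges of type `τ` -/
theorem frac_ty (hl : 3 ≤ l) (ν : ℕ) (hν : ν ≤ S) (τ : Option (ZMod 3)) (c : Cr l S)
    (hc : τ ≠ some c.2.1) :
    ((univ.filter (fun c' : Cr l S => ty ν τ c c')).card : ℝ) /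
      ((2 * (l : ℝ) + 1) * (3 * ((S : ℝ) + 1))) = ft l S ν τ := by
  have hl0 : (0 : ℝ) < 2 * (l : ℝ) + 1 := by positivity
  have hS0 : (0 : ℝ) < (S : ℝ) + 1 := by positivity
  cases τ with
  | none =>
    have h := card_none hl ν hν c
    have h1 : (((univ.filter (fun c' : Cr l S => ty ν none c c')).card : ℕ) : ℝ) +
        (2 * ((S : ℝ) + 1) + 3) + 4 * ((S : ℝ) + 1 - ν) =
        (2 * (l : ℝ) + 1) * (3 * ((S : ℝ) + 1)) := by
      have h2 : ((S + 1 - ν : ℕ) : ℝ) = (S : ℝ) + 1 - ν := by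
        rw [Nat.cast_sub (by omega)]
        push_cast
        ring
      rw [← h2]
      exact_mod_cast h
    have h2 : (((univ.filter (fun c' : Cr l S => ty ν none c c')).card : ℕ) : ℝ) =
        (2 * (l : ℝ) + 1) * (3 * ((S : ℝ) + 1)) - (2 * ((S : ℝ) + 1) + 3) -
          4 * ((S : ℝ) + 1 - ν) := by linarith
    rw [h2]
    simp only [ft, if_true, f0, fq]
    field_simp
    ring
  | some j =>
    have h1 : (univ.filter (fun c' : Cr l S => ty ν (some j) c c')) =
        (univ.filter (fun c' : Cr l S => tj ν j c c')) := by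
      ext c'
      simp only [mem_filter, mem_univ, true_and]
      unfold ty
      constructor
      · rintro (⟨j', h1, h2⟩ | ⟨h1, _⟩)
        · rw [Option.some_inj.mp h1]; exact h2
        · exact absurd h1 (by simp)
      · intro h
        exact Or.inl ⟨j, rfl, h⟩
    rw [h1, card_tj ν hν j c (fun h => hc (by rw [h]))]
    have h2 : ((S + 1 - ν : ℕ) : ℝ) = (S : ℝ) + 1 - ν := by
      rw [Nat.cast_sub (by omega)]
      push_cast
      ring
    simp only [ft, fq, if_neg (Option.some_ne_none j)]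
    push_cast
    rw [h2]
    field_simp

end cores

section labels
variable {l m r K K1 S : ℕ}

theorem mem_cy {A : Finset (ZMod (2 * m + 1))} {Φ : Finset (Cr l S)} {t : Lh l m r K K1 S} :
    t ∈ cy A Φ ↔ ce t ∈ A ∧ cr t ∈ Φ := by
  simp [cy]

/-- boxes of labels -/
noncomputable def bb (A : Finset (ZMod (2 * m + 1))) (Φ : Finset (Cr l S))
    (C : Finset (Fin (r + 1))) (D : Finset (ZMod (2 * m + 1))) (E : Finset (Fin (K + 1)))
    (F : Finset (Fin (K1 + 1))) : Finset (Lh l m r K K1 S) :=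
  univ.filter (fun t => ce t ∈ A ∧ cr t ∈ Φ ∧ su t ∈ C ∧ kp t ∈ D ∧ io t ∈ E ∧ sp t ∈ F)

theorem mem_bb {A : Finset (ZMod (2 * m + 1))} {Φ : Finset (Cr l S)}
    {C : Finset (Fin (r + 1))} {D : Finset (ZMod (2 * m + 1))} {E : Finset (Fin (K + 1))}
    {F : Finset (Fin (K1 + 1))} {t : Lh l m r K K1 S} :
    t ∈ bb A Φ C D E F ↔
      ce t ∈ A ∧ cr t ∈ Φ ∧ su t ∈ C ∧ kp t ∈ D ∧ io t ∈ E ∧ sp t ∈ F := by
  simp [bb]

theorem card_bb (A : Finset (ZMod (2 * m + 1))) (Φ : Finset (Cr l S))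
    (C : Finset (Fin (r + 1))) (D : Finset (ZMod (2 * m + 1))) (E : Finset (Fin (K + 1)))
    (F : Finset (Fin (K1 + 1))) :
    (bb A Φ C D E F : Finset (Lh l m r K K1 S)).card =
      A.card * Φ.card * C.card * D.card * E.card * F.card := by
  have h : (bb A Φ C D E F : Finset (Lh l m r K K1 S)).card =
      (A ×ˢ (Φ ×ˢ (C ×ˢ (D ×ˢ (E ×ˢ F))))).card := by
    refine card_bij (fun t _ => (ce t, cr t, su t, kp t, io t, sp t)) ?_ ?_ ?_
    · intro t ht
      rw [mem_bb] at ht
      simp only [mem_product]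
      exact ht
    · intro t _ t' _ h
      obtain ⟨⟨a1, a2, a3, a4, a5, a6⟩, a7, a8⟩ := t
      obtain ⟨⟨b1, b2, b3, b4, b5, b6⟩, b7, b8⟩ := t'
      simp only [Prod.mk.injEq] at h ⊢
      tauto
    · rintro ⟨a, ⟨b, c⟩, s, k, i, p⟩ h
      simp only [mem_product] at h
      exact ⟨((a, b, s, k, i, p), c), mem_bb.mpr h, rfl⟩
  rw [h]
  simp only [card_product]
  ring

theorem card_Lh : Fintype.card (Lh l m r K K1 S) =
    (2 * m + 1) * ((2 * l + 1) * (3 * (S + 1))) * (r + 1) * (2 * m + 1) * (K + 1) * (K1 + 1) := by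
  have h := card_bb (l := l) (m := m) (r := r) (K := K) (K1 := K1) (S := S) univ univ univ univ
    univ univ
  have h2 : (bb univ univ univ univ univ univ : Finset (Lh l m r K K1 S)) = univ := by
    ext t
    simp [mem_bb]
  rw [h2, card_univ] at h
  rw [h]
  simp only [card_univ, card_core, card_zmod, Fintype.card_fin]

/-- density of a box -/
theorem den_bb (A : Finset (ZMod (2 * m + 1))) (Φ : Finset (Cr l S))
    (C : Finset (Fin (r + 1))) (D : Finset (ZMod (2 * m + 1))) (E : Finset (Fin (K + 1)))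
    (F : Finset (Fin (K1 + 1))) :
    den (bb A Φ C D E F : Finset (Lh l m r K K1 S)) =
      (A.card : ℝ) / (2 * m + 1) * (Φ.card / ((2 * (l : ℝ) + 1) * (3 * ((S : ℝ) + 1)))) *
        (C.card / (r + 1)) * (D.card / (2 * m + 1)) * (E.card / (K + 1)) * (F.card / (K1 + 1)) := by
  unfold den
  rw [card_bb, card_Lh]
  push_cast
  have h1 : (0 : ℝ) < 2 * (m : ℝ) + 1 := by positivity
  have h2 : (0 : ℝ) < 2 * (l : ℝ) + 1 := by positivity
  field_simp

/-- density of the labels with given cells and cores -/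
theorem den_cy (A : Finset (ZMod (2 * m + 1))) (Φ : Finset (Cr l S)) :
    den (cy A Φ : Finset (Lh l m r K K1 S)) =
      (A.card : ℝ) / (2 * m + 1) * (Φ.card / ((2 * (l : ℝ) + 1) * (3 * ((S : ℝ) + 1)))) := by
  have h : (cy A Φ : Finset (Lh l m r K K1 S)) = bb A Φ univ univ univ univ := by
    ext t
    simp [mem_bb, mem_cy]
  rw [h, den_bb]
  have h1 : (0 : ℝ) < 2 * (m : ℝ) + 1 := by positivity
  have h2 : (0 : ℝ) < (r : ℝ) + 1 := by positivity
  have h3 : (0 : ℝ) < (K : ℝ) + 1 := by positivity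
  have h4 : (0 : ℝ) < (K1 : ℝ) + 1 := by positivity
  simp only [card_univ, card_zmod, Fintype.card_fin]
  push_cast
  field_simp

/-- density of the labels of type `τ` next to the core `c`, in the cells `A` -/
theorem den_ty (hl : 3 ≤ l) (ν : ℕ) (hν : ν ≤ S) (τ : Option (ZMod 3)) (c : Cr l S)
    (hc : τ ≠ some c.2.1) (A : Finset (ZMod (2 * m + 1))) :
    den (cy A (univ.filter (fun c' => ty ν τ c c')) : Finset (Lh l m r K K1 S)) =
      (A.card : ℝ) / (2 * m + 1) * ft l S ν τ := by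
  rw [den_cy, frac_ty hl ν hν τ c hc]

/-- density of the reserve of the rounds of type `τ` next to the core `c`, in the cells `A` -/
theorem den_rr (hl : 2 ≤ l) (τ : Option (ZMod 3)) (c : Cr l S) (hc : τ ≠ some c.2.1)
    (A : Finset (ZMod (2 * m + 1))) :
    den (cy A (univ.filter (fun c' => rr c c' ∧ τ ≠ some c'.2.1)) :
      Finset (Lh l m r K K1 S)) = A.card * ((2 * ((S : ℝ) + 1) + np τ) * pr l m S) := by
  rw [den_cy, card_rr hl c τ hc]
  unfold pr
  have h1 : (0 : ℝ) < 2 * (m : ℝ) + 1 := by positivity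
  have h2 : (0 : ℝ) < 2 * (l : ℝ) + 1 := by positivity
  push_cast
  field_simp

/-- density of the final reserve next to the core `c`, in the cells `A` -/
theorem den_rf (hl : 1 ≤ l) (c : Cr l S) (A : Finset (ZMod (2 * m + 1))) :
    den (cy A (univ.filter (fun c' => rf c c')) : Finset (Lh l m r K K1 S)) =
      (A.card : ℝ) / (2 * m + 1) * (2 / (3 * (2 * (l : ℝ) + 1))) := by
  rw [den_cy, card_rf hl c]
  have h1 : (0 : ℝ) < 2 * (m : ℝ) + 1 := by positivity
  have h2 : (0 : ℝ) < 2 * (l : ℝ) + 1 := by positivity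
  push_cast
  field_simp

/-- density of the labels of the part `i`, in the cells `A` -/
theorem den_pt (i : ZMod 3) (A : Finset (ZMod (2 * m + 1))) :
    den (univ.filter (fun t => ce t ∈ A ∧ pt t = i) : Finset (Lh l m r K K1 S)) =
      (A.card : ℝ) / (2 * m + 1) * (1 / 3) := by
  have h : (univ.filter (fun t => ce t ∈ A ∧ pt t = i) : Finset (Lh l m r K K1 S)) =
      cy A ((univ : Finset (ZMod (2 * l + 1))) ×ˢ (({i} : Finset (ZMod 3)) ×ˢ
        (univ : Finset (ZMod (S + 1))))) := by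
    ext t
    rw [mem_cy, mem_filter, mem_product, mem_product, mem_singleton]
    simp only [mem_univ, true_and, and_true]
  rw [h, den_cy, card_product, card_product, card_singleton, card_univ, card_univ, card_zmod,
    card_zmod]
  have h1 : (0 : ℝ) < 2 * (m : ℝ) + 1 := by positivity
  have h2 : (0 : ℝ) < 2 * (l : ℝ) + 1 := by positivity
  push_cast
  field_simp

end labels

section bounds

theorem fq_nonneg (l S ν : ℕ) (hν : ν ≤ S) : 0 ≤ fq l S ν := by
  unfold fq
  have : (ν : ℝ) ≤ S := by exact_mod_cast hν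
  have h1 : (0 : ℝ) ≤ (S : ℝ) + 1 - ν := by linarith
  positivity

theorem fq_pos (l S ν : ℕ) (hν : ν ≤ S) : 0 < fq l S ν := by
  unfold fq
  have : (ν : ℝ) ≤ S := by exact_mod_cast hν
  have h1 : (0 : ℝ) < (S : ℝ) + 1 - ν := by linarith
  positivity

theorem fq_le (l S ν : ℕ) : fq l S ν ≤ 2 / (3 * (2 * (l : ℝ) + 1)) := by
  unfold fq
  have h0 : (0 : ℝ) ≤ 2 / (3 * (2 * (l : ℝ) + 1)) := by positivity
  have h1 : ((S : ℝ) + 1 - ν) / ((S : ℝ) + 1) ≤ 1 := by
    rw [div_le_one (by positivity)]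
    linarith [(Nat.cast_nonneg ν : (0 : ℝ) ≤ ν)]
  exact mul_le_of_le_one_right h0 h1

theorem f0_le (l S ν : ℕ) (hν : ν ≤ S) : f0 l S ν ≤ 1 := by
  unfold f0
  have h1 := fq_nonneg l S ν hν
  have h2 : (0 : ℝ) ≤ 2 / (3 * (2 * (l : ℝ) + 1)) := by positivity
  have h3 : (0 : ℝ) ≤ 1 / ((2 * (l : ℝ) + 1) * ((S : ℝ) + 1)) := by positivity
  linarith

theorem f0_ge (l S ν : ℕ) : 1 - 3 / (2 * (l : ℝ) + 1) ≤ f0 l S ν := by
  unfold f0
  have h1 := fq_le l S ν
  have h3 : 1 / ((2 * (l : ℝ) + 1) * ((S : ℝ) + 1)) ≤ 1 / (2 * (l : ℝ) + 1) := by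
    apply one_div_le_one_div_of_le (by positivity)
    have : (0 : ℝ) ≤ S := Nat.cast_nonneg S
    nlinarith [(by positivity : (0 : ℝ) ≤ 2 * (l : ℝ) + 1)]
  have h4 : 2 / (3 * (2 * (l : ℝ) + 1)) = 2 / 3 * (1 / (2 * (l : ℝ) + 1)) := by
    field_simp
  have h5 : 3 / (2 * (l : ℝ) + 1) = 3 * (1 / (2 * (l : ℝ) + 1)) := by ring
  rw [h4] at h1 ⊢
  rw [h5]
  linarith

/-- sum of all types (type `some j` for three palettes) -/
theorem f_sum (l S ν : ℕ) : f0 l S ν + 3 * fq l S ν =
    1 - (2 * (ν : ℝ) / 3 + 1) / ((2 * (l : ℝ) + 1) * ((S : ℝ) + 1)) := by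
  unfold f0 fq
  have h1 : (0 : ℝ) < 2 * (l : ℝ) + 1 := by positivity
  have h2 : (0 : ℝ) < (S : ℝ) + 1 := by positivity
  field_simp
  ring

end bounds

end Pool.Agent.Work.MP_db9399_lh
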