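import Pool.Agent.Work.MP_db9399_lc.Interface

/-!
# MP_db9399, THEOREM LCH: THEOREM LC for all matchings `H` and all precolourings
(owner helper35; a modification of THEOREM LC of helper6 and THEOREM BIG of helper43)

Three parts of the vertex set (label `pt`), three disjoint final palettes. The final stage with the
palette `j` happens inside the part `j`; in the rounds of the colours of the palette `j` only the
vertices outside the part `j` are covered (`τ x.2.2 = some j`). See `BLUEPRINT.md`.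
-/

set_option autoImplicit false

namespace Pool.Agent.Work.MP_db9399_lh

open Finset Classical
open Pool.Agent.Work.MP_db9399_all (nb)
open Pool.Agent.Work.MP_db9399_px (LWalk hit ee)
open Pool.Agent.Work.MP_db9399_dn (NB IsMat Tot)
open Pool.Agent.Work.MP_db9399_sc (cut Crit Conn Env Fam Rnd Hv)
open Pool.Agent.Work.MP_db9399_bg (den cl LabP Good PN IsPat en enP Sep Near REnv r0 Deep Spr Ok
  Lbl bx c3f c3 rs rs_symm eR HPre Ix)
open Pool.Agent.Work.MP_db9399_lc (BL)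
open _root_.MP_db9399_co

universe u

/-! ## Labels -/

/-- core of a label: `lam`, part, sub-label -/
abbrev Cr (l S : ℕ) := ZMod (2 * l + 1) × (ZMod 3 × ZMod (S + 1))

/-- labels: those of BIG together with part and sub-label -/
abbrev Lh (l m r K K1 S : ℕ) := Lbl l m r K K1 × (ZMod 3 × ZMod (S + 1))

section lbl
variable {l m r K K1 S : ℕ}

/-- cell -/
abbrev ce (t : Lh l m r K K1 S) : ZMod (2 * m + 1) := t.1.1
/-- subcell -/
abbrev su (t : Lh l m r K K1 S) : Fin (r + 1) := t.1.2.2.1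
/-- optional centre -/
abbrev kp (t : Lh l m r K K1 S) : ZMod (2 * m + 1) := t.1.2.2.2.1
/-- optional flag -/
abbrev io (t : Lh l m r K K1 S) : Fin (K + 1) := t.1.2.2.2.2.1
/-- split of the leftover -/
abbrev sp (t : Lh l m r K K1 S) : Fin (K1 + 1) := t.1.2.2.2.2.2
/-- part -/
abbrev pt (t : Lh l m r K K1 S) : ZMod 3 := t.2.1
/-- core -/
abbrev cr (t : Lh l m r K K1 S) : Cr l S := (t.1.2.1, t.2)

/-- labels with cell in `A` and core in `Φ` -/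
noncomputable def cy (A : Finset (ZMod (2 * m + 1))) (Φ : Finset (Cr l S)) :
    Finset (Lh l m r K K1 S) := univ.filter (fun t => ce t ∈ A ∧ cr t ∈ Φ)

/-- final reserve: inside one part -/
def rf (c c' : Cr l S) : Prop := c.2.1 = c'.2.1 ∧ rs c.1 c'.1

/-- connectors (any two parts) -/
def rx (c c' : Cr l S) : Prop := c.1 + c'.1 = 3 ∧ c.2.2 = c'.2.2

/-- reserve of the rounds -/
def rr (c c' : Cr l S) : Prop := rf c c' ∨ rx c c'

/-- edges of the near-decomposition of the type `j`; `ν` small compared with `S` -/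
def tj (ν : ℕ) (j : ZMod 3) (c c' : Cr l S) : Prop :=
  c.2.1 ≠ j ∧ c'.2.1 ≠ j ∧ ν ≤ (c.2.2 + c'.2.2).val ∧
    ((c.2.1 ≠ c'.2.1 ∧ c.1 + c'.1 = 4) ∨
      (c.2.1 = c'.2.1 ∧ ((c.1 + c'.1 = 4 ∧ j = c.2.1 + 1) ∨ (c.1 + c'.1 = 5 ∧ j = c.2.1 + 2))))

/-- edges of the near-decomposition for the rounds of type `τ` (`none`: all parts) -/
def ty (ν : ℕ) (τ : Option (ZMod 3)) (c c' : Cr l S) : Prop :=
  (∃ j, τ = some j ∧ tj ν j c c') ∨ (τ = none ∧ ¬ rr c c' ∧ ∀ j, ¬ tj ν j c c')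

/-- the label belongs to the vertices which may be missed -/
def inM (t : Lh l m r K K1 S) : Prop :=
  2 ≤ t.1.2.1.val ∧ t.1.2.1.val ≠ l ∧ t.1.2.1.val ≠ l + 1

/-- classes of the rounds with centre `a`, distance `h + 1` and type `τ` -/
noncomputable def rP (l r K K1 S : ℕ) {m : ℕ} (a : ZMod (2 * m + 1)) (h : Fin m)
    (τ : Option (ZMod 3)) :
    Fin 3 × {c : Cr l S // τ ≠ some c.2.1} → Finset (Lh l m r K K1 S) :=
  fun b => cy {c3f a h b.1} {b.2.1}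

/-- pattern of the rounds of type `τ` -/
def rR (l S : ℕ) (τ : Option (ZMod 3)) (b b' : Fin 3 × {c : Cr l S // τ ≠ some c.2.1}) : Prop :=
  b.1 ≠ b'.1 ∧ rr b.2.1 b'.2.1

/-- number of parts -/
def np (τ : Option (ZMod 3)) : ℕ := if τ = none then 3 else 2

/-- degree of the pattern of the rounds of type `τ` -/
def nr (S : ℕ) (τ : Option (ZMod 3)) : ℕ := 2 * (2 * (S + 1) + np τ)

/-- classes of the last rounds in the part `i` -/
noncomputable def eP (l m r K K1 S : ℕ) (i : ZMod 3) :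
    ZMod (2 * l + 1) → Finset (Lh l m r K K1 S) :=
  fun b => univ.filter (fun t => t.1.2.1 = b ∧ pt t = i)

end lbl

/-- proportion of the classes of the rounds -/
noncomputable def pr (l m S : ℕ) : ℝ :=
  1 / ((2 * (m : ℝ) + 1) * ((2 * (l : ℝ) + 1) * (3 * ((S : ℝ) + 1))))

/-- typical degree in the rounds of type `τ` -/
noncomputable def qr (l m S : ℕ) (τ : Option (ZMod 3)) (d : ℕ) : ℝ := nr S τ * pr l m S * d

/-- typical degree in the last rounds -/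
noncomputable def qe (l d : ℕ) : ℝ := 2 * (d : ℝ) / (3 * (2 * (l : ℝ) + 1))

/-- proportion of the edges of type `some j` at a vertex outside the part `j` -/
noncomputable def fq (l S ν : ℕ) : ℝ :=
  2 / (3 * (2 * (l : ℝ) + 1)) * (((S : ℝ) + 1 - ν) / ((S : ℝ) + 1))

/-- proportion of the edges of type `none` -/
noncomputable def f0 (l S ν : ℕ) : ℝ :=
  1 - 2 / (3 * (2 * (l : ℝ) + 1)) - 1 / ((2 * (l : ℝ) + 1) * ((S : ℝ) + 1)) - 2 * fq l S ν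

/-- the same for every type -/
noncomputable def ft (l S ν : ℕ) (τ : Option (ZMod 3)) : ℝ :=
  if τ = none then f0 l S ν else fq l S ν

section ctx
variable {V : Type u} [Fintype V] {l m r K K1 S : ℕ}

/-- the vertices of the part `i` in the cell `a` -/
noncomputable def Vq (lab : V → Lh l m r K K1 S) (a : ZMod (2 * m + 1)) (i : ZMod 3) : Finset V :=
  univ.filter (fun v => ce (lab v) = a ∧ pt (lab v) = i)

/-- one more round is possible; `i`: the part of the missed vertices -/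
def OneRound (g δ : ℝ) (G : SimpleGraph V) (d : ℕ) (lab : V → Lh l m r K K1 S) : Prop :=
  ∀ (τ : Option (ZMod 3)) (i : ZMod 3) (F : SimpleGraph V) (a : ZMod (2 * m + 1)) (h : Fin m)
    (U J : Finset V) (lg : ℕ) (Oi : ℕ → Finset V), τ ≠ some i →
    REnv G F (qr l m S τ d) δ lab (rP l r K K1 S a h τ) (rR l S τ) U J →
    lg * (3 * (2 * m + 1)) ≤ d → (∀ j < lg, Spr g G d (3 * (2 * m + 1)) (Vq lab a i) (Oi j)) →
    ∃ (M : SimpleGraph V) (O : Finset V), M ≤ F ∧ IsMat M ∧ (∀ v w, M.Adj v w → v ∈ U) ∧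
      (∀ v ∈ U, v ∉ O → (nb M v).Nonempty) ∧ O ⊆ U ∧
      (∀ v ∈ O, ce (lab v) = a ∧ pt (lab v) = i ∧ inM (lab v) ∧ ∀ j < lg, v ∉ Oi j) ∧
      Spr g G d (3 * (2 * m + 1)) (Vq lab a i) O

/-- critical sets of the last rounds contain unused vertices which may be missed -/
def EndCap (g δ : ℝ) (G : SimpleGraph V) (d : ℕ) (lab : V → Lh l m r K K1 S) : Prop :=
  ∀ (i : ZMod 3) (F : SimpleGraph V) (U L C : Finset V) (qq lg : ℕ)
    (Oi : ZMod (2 * m + 1) → ℕ → Finset V),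
    REnv G F (qe l d) δ lab (eP l m r K K1 S i) (eR l) U ∅ →
    qe l d ≤ qq → (qq : ℝ) ≤ 101 / 100 * qe l d → L ⊆ U → Crit F qq U L C → Conn F C →
    lg * (3 * (2 * m + 1)) ≤ d →
    (∀ a, ∀ j < lg, Spr g G d (3 * (2 * m + 1)) (Vq lab a i) (Oi a j)) →
    g / 40 * C.card ≤ ((C.filter (fun v => inM (lab v) ∧ ∀ a, ∀ j < lg, v ∉ Oi a j)).card : ℝ)

/-- signless expansion of the last pattern -/
def EndSX (c : ℝ) (G : SimpleGraph V) (d : ℕ) (lab : V → Lh l m r K K1 S) : Prop :=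
  ∀ A B : Finset V, Disjoint A B →
    c * qe l d * ((A.card : ℝ) + B.card) ≤ ∑ i, enP G lab (eP l m r K K1 S i) (eR l) A B

/-! ## The data. `e x`: colours with index `x = (a, h, s)`, type `τ s`; `e1 y`: other colours;
`tp u`: the part of `u ∈ UH` -/

/-- `b` is a colour of the rounds for the vertex `u` of `UH` of type `i` -/
def Vd {k w W1 : ℕ} (e : Ix m w → Fin k) (τ : Fin w → Option (ZMod 3)) (e1 : Fin W1 → Fin k)
    (i : ZMod 3) (b : Fin k) : Prop :=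
  (∃ x, e x = b ∧ τ x.2.2 ≠ some i) ∨ b ∈ Set.range e1

/-- Near-decomposition. `Nd x` joins the cells `a` and `2 * x.1 - a` outside the three cells of `x`
by edges of type `τ x.2.2`. -/
structure NDec {w : ℕ} (ν : ℕ) (G : SimpleGraph V) (UH : Finset V) (lab : V → Lh l m r K K1 S)
    (τ : Fin w → Option (ZMod 3)) (Nd : Ix m w → SimpleGraph V) : Prop where
  le : ∀ x, Nd x ≤ G
  mat : ∀ x, IsMat (Nd x)
  adj : ∀ x v v', (Nd x).Adj v v' → v ∉ UH ∧ ce (lab v) ∉ c3 x.1 x.2.1 ∧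
    ce (lab v) + ce (lab v') = 2 * x.1 ∧ ty ν (τ x.2.2) (cr (lab v)) (cr (lab v'))
  dis : ∀ x x', x ≠ x' → ∀ v v', (Nd x).Adj v v' → ¬ (Nd x').Adj v v'
  cov : ∀ x v, v ∉ UH → ce (lab v) ∉ c3 x.1 x.2.1 → τ x.2.2 ≠ some (pt (lab v)) →
    ¬ (kp (lab v) = x.1 ∧ io (lab v) = 0) → (nb (Nd x) v).Nonempty

/-- the vertex colouring: only colours `e x` of type `none` -/
structure VCol {k w : ℕ} (G : SimpleGraph V) (UH : Finset V) (c0 : V → Fin k)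
    (lab : V → Lh l m r K K1 S) (e : Ix m w → Fin k) (τ : Fin w → Option (ZMod 3))
    (pal : Fin m × Fin w → Fin (r + 1)) (c : V → Fin k) : Prop where
  cU : ∀ v ∈ UH, c v = c0 v
  cP : ∀ v, v ∉ UH → ∃ y, c v = e (ce (lab v), y) ∧ pal y = su (lab v) ∧ τ y.2 = none
  adj : ∀ v v', G.Adj v v' → c v ≠ c v'

/-- the partners of the vertices of `UH` in the colour `b` -/
noncomputable def UW {k w W1 : ℕ} (UH : Finset V) (c0 tu : V → Fin k) (e : Ix m w → Fin k)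
    (τ : Fin w → Option (ZMod 3)) (e1 : Fin W1 → Fin k) (tp : V → ZMod 3)
    (wv : V → Fin k → V) (b : Fin k) : Finset V :=
  univ.filter (fun v => ∃ u ∈ UH, Vd e τ e1 (tp u) b ∧ b ≠ c0 u ∧ b ≠ tu u ∧ wv u b = v)

/-- `wv u b` = partner of `u ∈ UH` in the colour `b`; every neighbour of `u` outside the part
`tp u` or with label in `inM` is a partner in a colour `e x` -/
structure UPar {k w W1 : ℕ} (G : SimpleGraph V) (d : ℕ) (δ : ℝ) (UH : Finset V)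
    (c0 tu : V → Fin k) (lab : V → Lh l m r K K1 S) (e : Ix m w → Fin k)
    (τ : Fin w → Option (ZMod 3)) (e1 : Fin W1 → Fin k)
    (sy : Fin W1 → Fin (K1 + 1) × Fin (K1 + 1)) (tp : V → ZMod 3) (c : V → Fin k)
    (wv : V → Fin k → V) : Prop where
  adj : ∀ u ∈ UH, ∀ b, b ≠ c0 u → b ≠ tu u → Vd e τ e1 (tp u) b →
    G.Adj u (wv u b) ∧ wv u b ∉ UH ∧ c (wv u b) ≠ b
  inj : ∀ u ∈ UH, ∀ b b', b ≠ c0 u → b ≠ tu u → b' ≠ c0 u → b' ≠ tu u →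
    Vd e τ e1 (tp u) b → Vd e τ e1 (tp u) b' → wv u b = wv u b' → b = b'
  inj2 : ∀ u ∈ UH, ∀ u' ∈ UH, ∀ b, b ≠ c0 u → b ≠ tu u → b ≠ c0 u' → b ≠ tu u' →
    Vd e τ e1 (tp u) b → Vd e τ e1 (tp u') b → wv u b = wv u' b → u = u'
  cel : ∀ u ∈ UH, ∀ x, e x ≠ c0 u → e x ≠ tu u → τ x.2.2 ≠ some (tp u) →
    ce (lab (wv u (e x))) ∈ c3 x.1 x.2.1 ∧ τ x.2.2 ≠ some (pt (lab (wv u (e x))))
  spl : ∀ u ∈ UH, ∀ y, e1 y ≠ c0 u → e1 y ≠ tu u →
    sp (lab (wv u (e1 y))) ≠ (sy y).1 ∧ sp (lab (wv u (e1 y))) ≠ (sy y).2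
  sat : ∀ u ∈ UH, ∀ v, G.Adj u v → v ∉ UH → (pt (lab v) ≠ tp u ∨ inM (lab v)) →
    ∃ x, τ x.2.2 ≠ some (tp u) ∧ e x ≠ c0 u ∧ e x ≠ tu u ∧ wv u (e x) = v
  spr : ∀ v b, ((nb G v ∩ UW UH c0 tu e τ e1 tp wv b).card : ℝ) ≤ δ * d

/-- the reserve graph of the rounds -/
def Rr (G : SimpleGraph V) (UH : Finset V) (lab : V → Lh l m r K K1 S) : SimpleGraph V where
  Adj v v' := G.Adj v v' ∧ v ∉ UH ∧ v' ∉ UH ∧ ce (lab v) ≠ ce (lab v') ∧
    rr (cr (lab v)) (cr (lab v'))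
  symm := ⟨fun v v' h => ⟨h.1.symm, h.2.2.1, h.2.1, h.2.2.2.1.symm, by
    rcases h.2.2.2.2 with ⟨h1, h2⟩ | ⟨h1, h2⟩
    · exact Or.inl ⟨h1.symm, rs_symm h2⟩
    · exact Or.inr ⟨(add_comm _ _).trans h1, h2.symm⟩⟩⟩
  loopless := ⟨fun v h => G.loopless.irrefl v h.1⟩

/-- the final reserve graph -/
def Rf (G : SimpleGraph V) (UH : Finset V) (lab : V → Lh l m r K K1 S) : SimpleGraph V where
  Adj v v' := G.Adj v v' ∧ v ∉ UH ∧ v' ∉ UH ∧ ce (lab v) ≠ ce (lab v') ∧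
    rf (cr (lab v)) (cr (lab v'))
  symm := ⟨fun v v' h => ⟨h.1.symm, h.2.2.1, h.2.1, h.2.2.2.1.symm,
    ⟨h.2.2.2.2.1.symm, rs_symm h.2.2.2.2.2⟩⟩⟩
  loopless := ⟨fun v h => G.loopless.irrefl v h.1⟩

/-- the junk of the round `x` -/
noncomputable def Jk {w : ℕ} (UH : Finset V) (lab : V → Lh l m r K K1 S)
    (τ : Fin w → Option (ZMod 3)) (Nd : Ix m w → SimpleGraph V) (x : Ix m w) : Finset V :=
  univ.filter (fun v => v ∉ UH ∧ τ x.2.2 ≠ some (pt (lab v)) ∧ ce (lab v) ∉ c3 x.1 x.2.1 ∧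
    ¬ (nb (Nd x) v).Nonempty)

/-- the vertices to be covered by reserve edges in the round `x` -/
noncomputable def Ub {k w W1 : ℕ} (UH : Finset V) (c0 tu : V → Fin k)
    (lab : V → Lh l m r K K1 S) (e : Ix m w → Fin k) (τ : Fin w → Option (ZMod 3))
    (e1 : Fin W1 → Fin k) (tp : V → ZMod 3) (c : V → Fin k) (wv : V → Fin k → V)
    (Nd : Ix m w → SimpleGraph V) (x : Ix m w) : Finset V :=
  univ.filter (fun v => (v ∉ UH ∧ τ x.2.2 ≠ some (pt (lab v)) ∧ ce (lab v) ∈ c3 x.1 x.2.1 ∧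
    c v ≠ e x ∧ v ∉ UW UH c0 tu e τ e1 tp wv (e x)) ∨ v ∈ Jk UH lab τ Nd x)

/-- the result of the rounds of the colours `e x` -/
structure P0R {k w W1 : ℕ} (g : ℝ) (G : SimpleGraph V) (d : ℕ) (UH : Finset V)
    (c0 tu : V → Fin k) (lab : V → Lh l m r K K1 S) (e : Ix m w → Fin k)
    (τ : Fin w → Option (ZMod 3)) (ρ : Fin w → ZMod 3) (e1 : Fin W1 → Fin k) (tp : V → ZMod 3)
    (c : V → Fin k) (wv : V → Fin k → V) (Nd M : Ix m w → SimpleGraph V)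
    (O : Ix m w → Finset V) : Prop where
  le : ∀ x v v', (M x).Adj v v' → (Rr G UH lab).Adj v v' ∧
    v ∈ Ub UH c0 tu lab e τ e1 tp c wv Nd x
  mat : ∀ x, IsMat (M x)
  dis : ∀ x x', x ≠ x' → ∀ v v', (M x).Adj v v' → ¬ (M x').Adj v v'
  cov : ∀ x, ∀ v ∈ Ub UH c0 tu lab e τ e1 tp c wv Nd x, v ∉ O x → (nb (M x) v).Nonempty
  OU : ∀ x, ∀ v ∈ O x, v ∉ UH ∧ ce (lab v) = x.1 ∧ pt (lab v) = ρ x.2.2 ∧ inM (lab v)
  Od : ∀ x x', x ≠ x' → Disjoint (O x) (O x')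
  spr : ∀ x, Spr g G d (3 * (2 * m + 1)) (Vq lab x.1 (ρ x.2.2)) (O x)

/-- the leftover: all edges between vertices outside `UH` which are not final reserve edges, not in
the near-decomposition and not used in the rounds of the colours `e x` -/
structure Lft {w W1 : ℕ} (G : SimpleGraph V) (UH : Finset V) (lab : V → Lh l m r K K1 S)
    (sy : Fin W1 → Fin (K1 + 1) × Fin (K1 + 1)) (Nd M : Ix m w → SimpleGraph V)
    (Kk : Fin W1 → SimpleGraph V) : Prop where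
  le : ∀ y, Kk y ≤ G
  mat : ∀ y, IsMat (Kk y)
  mem : ∀ y v v', (Kk y).Adj v v' → v ∉ UH ∧ ¬ (Rf G UH lab).Adj v v' ∧
    (sp (lab v) = (sy y).1 ∨ sp (lab v) = (sy y).2)
  dis : ∀ y y', y ≠ y' → ∀ v v', (Kk y).Adj v v' → ¬ (Kk y').Adj v v'
  new : ∀ y v v', (Kk y).Adj v v' → ∀ x, ¬ (Nd x).Adj v v' ∧ ¬ (M x).Adj v v'
  all : ∀ v v', v ∉ UH → v' ∉ UH → G.Adj v v' → ¬ (Rf G UH lab).Adj v v' →
    (∃ x, (Nd x).Adj v v') ∨ (∃ x, (M x).Adj v v') ∨ ∃ y, (Kk y).Adj v v'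

/-- the result of the rounds of the colours `e1 y`: final reserve matchings `M1 y` covering
everything except `O1 y` -/
structure PeR {k w W1 : ℕ} (G : SimpleGraph V) (UH : Finset V) (c0 tu : V → Fin k)
    (lab : V → Lh l m r K K1 S) (e : Ix m w → Fin k) (τ : Fin w → Option (ZMod 3))
    (e1 : Fin W1 → Fin k) (tp : V → ZMod 3) (wv : V → Fin k → V)
    (Kk : Fin W1 → SimpleGraph V) (M : Ix m w → SimpleGraph V) (O : Ix m w → Finset V)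
    (M1 : Fin W1 → SimpleGraph V) (O1 : Fin W1 → Finset V) : Prop where
  le : ∀ y v v', (M1 y).Adj v v' → (Rf G UH lab).Adj v v' ∧
    v ∉ UW UH c0 tu e τ e1 tp wv (e1 y) ∧ ¬ (nb (Kk y) v).Nonempty
  mat : ∀ y, IsMat (M1 y)
  dis : ∀ y y', y ≠ y' → ∀ v v', (M1 y).Adj v v' → ¬ (M1 y').Adj v v'
  new : ∀ y v v', (M1 y).Adj v v' → ∀ x, ¬ (M x).Adj v v'
  cov : ∀ y v, v ∉ UH → v ∉ UW UH c0 tu e τ e1 tp wv (e1 y) → ¬ (nb (Kk y) v).Nonempty →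
    v ∉ O1 y → (nb (M1 y) v).Nonempty
  OW : ∀ y, ∀ v ∈ O1 y, v ∉ UH ∧ inM (lab v)
  O1d : ∀ y y', y ≠ y' → Disjoint (O1 y) (O1 y')
  Od : ∀ y x, Disjoint (O1 y) (O x)

end ctx

/-! ## Blocks. LAB, SXR, DEEPF, HIT2, TUT2, FAC are those of BIG; SXP, T1, GROW, UCS, EMBB those of
LC; LEMU of helper6. -/

/-- PAT: the patterns. -/
def Stmt_PAT : Prop :=
  ∀ l m r K K1 S : ℕ, 2 ≤ l → 1 ≤ m →
    (∀ (a : ZMod (2 * m + 1)) (h : Fin m) (τ : Option (ZMod 3)),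
      IsPat (rP l r K K1 S a h τ) (rR l S τ) (nr S τ) (4 * l + 3) (pr l m S)) ∧
    ∀ i : ZMod 3, IsPat (eP l m r K K1 S i) (eR l) 2 (2 * l + 1) (1 / (3 * (2 * l + 1)))

/-- ESX (from SXP of LC, PAT): signless expansion of the last pattern (sum over the three parts;
first shrink `A`, `B` to the part). -/
def Stmt_ESX : Prop :=
  ∀ (g : ℝ) (l : ℕ), 0 < g → 2 ≤ l → ∃ c : ℝ, 0 < c ∧ c ≤ 1 ∧ ∀ m r K K1 S : ℕ, 1 ≤ m →
    ∃ (σ c1 ε0 : ℝ) (d0 : ℕ), 0 < σ ∧ 0 < c1 ∧ 0 < ε0 ∧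
    ∀ {V : Type u} [Fintype V] (G : SimpleGraph V) (d : ℕ) (lab : V → Lh l m r K K1 S),
      d0 ≤ d → BL g ε0 G d → LabP G d σ c1 lab → EndSX c G d lab

/-- RND1 (from SXP, T1, GROW of LC, SXR, DEEPF, HIT2, TUT2 of BIG, PAT): one round. -/
def Stmt_RND1 : Prop :=
  ∀ g : ℝ, 0 < g → g ≤ 1 / 10 → ∃ l0 : ℕ, ∀ l S : ℕ, l0 ≤ l → ∃ δ : ℝ, 0 < δ ∧
    ∀ m r K K1 : ℕ, 1 ≤ m → ∃ (σ c1 ε0 : ℝ) (d0 : ℕ), 0 < σ ∧ 0 < c1 ∧ 0 < ε0 ∧
    ∀ {V : Type u} [Fintype V] (G : SimpleGraph V) (d : ℕ) (lab : V → Lh l m r K K1 S),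
      d0 ≤ d → BL g ε0 G d → LabP G d σ c1 lab → OneRound g δ G d lab

/-- CAPE (from T1, GROW of LC, DEEPF of BIG, PAT): the last rounds. -/
def Stmt_CAPE : Prop :=
  ∀ g : ℝ, 0 < g → g ≤ 1 / 10 → ∃ l0 : ℕ, ∀ l : ℕ, l0 ≤ l → ∃ δ : ℝ, 0 < δ ∧
    ∀ m r K K1 S : ℕ, 1 ≤ m → ∃ (σ c1 ε0 : ℝ) (d0 : ℕ), 0 < σ ∧ 0 < c1 ∧ 0 < ε0 ∧
    ∀ {V : Type u} [Fintype V] (G : SimpleGraph V) (d : ℕ) (lab : V → Lh l m r K K1 S),
      d0 ≤ d → BL g ε0 G d → LabP G d σ c1 lab → EndCap g δ G d lab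

/-- NDEC (from FAC of BIG): the near-decomposition, one application of FAC for every type. -/
def Stmt_NDEC : Prop :=
  ∀ (g : ℝ) (l m r K K1 S ν : ℕ), 0 < g → 3 ≤ l → 2 ≤ m → ν ≤ S → ∃ (σ ε0 : ℝ) (d0 : ℕ),
    0 < σ ∧ 0 < ε0 ∧
    ∀ {V : Type u} [Fintype V] (G : SimpleGraph V) (d w : ℕ) (c1 : ℝ) (UH : Finset V)
      (lab : V → Lh l m r K K1 S) (τ : Fin w → Option (ZMod 3)), d0 ≤ d → BL g ε0 G d →
      LabP G d σ c1 lab → (∀ v, (nb G v ∩ UH).card ≤ 2) →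
      (∀ t, ((m : ℝ) - 1) * (univ.filter (fun s => τ s = t)).card ≤
        (1 - 1 / (2 * m + 1)) * (ft l S ν t * d / (2 * m + 1))) →
      ∃ Nd : Ix m w → SimpleGraph V, NDec ν G UH lab τ Nd

/-- VCOL (from VCX of MP_db9399_exp): the vertex colouring. -/
def Stmt_VCOL : Prop :=
  ∀ g : ℝ, 0 < g → g ≤ 1 / 10 → ∃ κ : ℝ, 0 < κ ∧ κ ≤ 1 ∧ ∀ l m r K K1 S : ℕ,
    ∃ (σ ε0 : ℝ) (d0 : ℕ), 0 < σ ∧ 0 < ε0 ∧
    ∀ {V : Type u} [Fintype V] (G : SimpleGraph V) (d k w : ℕ) (c1 : ℝ) (UH : Finset V)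
      (c0 : V → Fin k) (EH : SimpleGraph V) (tu : V → Fin k) (lab : V → Lh l m r K K1 S)
      (e : Ix m w → Fin k) (τ : Fin w → Option (ZMod 3)) (pal : Fin m × Fin w → Fin (r + 1)),
      d0 ≤ d → BL g ε0 G d → LabP G d σ c1 lab → HPre G UH c0 EH tu → Function.Injective e →
      (∀ s, (1 - κ) * d ≤ (2 * m + 1) * (r + 1) *
        ((univ.filter (fun y : Fin m × Fin w => pal y = s ∧ τ y.2 = none)).card : ℝ)) →
      ∃ c : V → Fin k, VCol G UH c0 lab e τ pal c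

/-- UPAR (from UCS of LC and UCL of BIG): the partners of the vertices of `UH`. -/
def Stmt_UPAR : Prop :=
  ∀ (l m r K K1 S : ℕ) (δ : ℝ), 0 < δ → 20 ≤ l → 1 ≤ m → 20 * (2 * l + 1) ≤ r → 4 ≤ K1 →
    ∃ (σ ε0 : ℝ) (d0 : ℕ), 0 < σ ∧ 0 < ε0 ∧
    ∀ {V : Type u} [Fintype V] (G : SimpleGraph V) (d k w w0 wq W1 : ℕ) (g c1 : ℝ)
      (UH : Finset V) (c0 : V → Fin k) (EH : SimpleGraph V) (tu : V → Fin k)
      (lab : V → Lh l m r K K1 S) (e : Ix m w → Fin k) (τ : Fin w → Option (ZMod 3))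
      (e1 : Fin W1 → Fin k) (sy : Fin W1 → Fin (K1 + 1) × Fin (K1 + 1)) (tp : V → ZMod 3)
      (pal : Fin m × Fin w → Fin (r + 1)) (c : V → Fin k), d0 ≤ d → BL g ε0 G d →
      LabP G d σ c1 lab → HPre G UH c0 EH tu → Function.Injective e → Function.Injective e1 →
      (∀ x y, e x ≠ e1 y) → VCol G UH c0 lab e τ pal c →
      (univ.filter (fun s => τ s = none)).card = w0 →
      (∀ j, (univ.filter (fun s => τ s = some j)).card = wq) →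
      (2 * (m : ℝ) + 1) * m * (w0 + 2 * wq) ≤ (1 - 1 / (2 * (2 * l + 1))) * d →
      (1 - 1 / (2 * l + 1)) * d ≤ (2 * (m : ℝ) + 1) * m * (w0 + 2 * wq) →
      (W1 : ℝ) ≤ d / (12 * (2 * l + 1)) →
      ∃ wv : V → Fin k → V, UPar G d δ UH c0 tu lab e τ e1 sy tp c wv

/-- P0ALL: the rounds of the colours `e x`. -/
def Stmt_P0ALL : Prop :=
  ∀ (g δ : ℝ) (l m r K K1 S ν : ℕ), 0 < g → 0 < δ → δ ≤ 1 / 10 → 3 ≤ l → 4 ≤ m →
    10000 * (2 * (l : ℝ) + 1) ≤ δ * (2 * m + 1) → 10000 * (2 * (l : ℝ) + 1) ≤ δ * (r + 1) →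
    10000 * (2 * (l : ℝ) + 1) ≤ δ * (K + 1) →
    ∃ (σ ε0 δ2 : ℝ) (d0 : ℕ), 0 < σ ∧ 0 < ε0 ∧ 0 < δ2 ∧
    ∀ {V : Type u} [Fintype V] (G : SimpleGraph V) (d k w W1 : ℕ) (c1 : ℝ) (UH : Finset V)
      (c0 : V → Fin k) (EH : SimpleGraph V) (tu : V → Fin k) (lab : V → Lh l m r K K1 S)
      (e : Ix m w → Fin k) (τ : Fin w → Option (ZMod 3)) (ρ : Fin w → ZMod 3)
      (e1 : Fin W1 → Fin k) (sy : Fin W1 → Fin (K1 + 1) × Fin (K1 + 1)) (tp : V → ZMod 3)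
      (pal : Fin m × Fin w → Fin (r + 1)) (c : V → Fin k) (wv : V → Fin k → V)
      (Nd : Ix m w → SimpleGraph V), d0 ≤ d → BL g ε0 G d → LabP G d σ c1 lab →
      OneRound g δ G d lab → HPre G UH c0 EH tu → Function.Injective e →
      VCol G UH c0 lab e τ pal c → UPar G d δ2 UH c0 tu lab e τ e1 sy tp c wv →
      NDec ν G UH lab τ Nd → (2 * (m : ℝ) + 1) * m * w ≤ d → (∀ s, τ s ≠ some (ρ s)) →
      (∀ i, (3 * (2 * (m : ℝ) + 1)) * (m * (univ.filter (fun s => ρ s = i)).card) ≤ d) →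
      ∃ (M : Ix m w → SimpleGraph V) (O : Ix m w → Finset V),
        P0R g G d UH c0 tu lab e τ ρ e1 tp c wv Nd M O

/-- LEFT (from `vizing`, Work/MP_db9399_all_helper34/VIZ.lean): the leftover, after the rounds of
the colours `e x`. -/
def Stmt_LEFT : Prop :=
  ∀ l m r K K1 S ν : ℕ, 3 ≤ l → 2 ≤ m → ν ≤ S → ∃ (σ ε0 : ℝ) (d0 : ℕ), 0 < σ ∧ 0 < ε0 ∧
    ∀ {V : Type u} [Fintype V] (G : SimpleGraph V) (d w W1 : ℕ) (g c1 : ℝ) (UH : Finset V)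
      (lab : V → Lh l m r K K1 S) (τ : Fin w → Option (ZMod 3))
      (sy : Fin W1 → Fin (K1 + 1) × Fin (K1 + 1)) (Nd M : Ix m w → SimpleGraph V), d0 ≤ d →
      BL g ε0 G d → LabP G d σ c1 lab → NDec ν G UH lab τ Nd →
      (∀ x v v', (M x).Adj v v' → (Rr G UH lab).Adj v v') →
      (∀ t, (1 - 2 / (2 * m + 1)) * (ft l S ν t * d / (2 * m + 1)) ≤
        ((m : ℝ) - 1) * (univ.filter (fun s => τ s = t)).card) →
      (∀ z, (d : ℝ) / ((2 * l + 1) * (S + 1)) + 8 * (d : ℝ) / (2 * m + 1) ≤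
        (univ.filter (fun y => sy y = z)).card) →
      ∃ Kk : Fin W1 → SimpleGraph V, Lft G UH lab sy Nd M Kk

/-- PEALL (from PALL of MP_db9399_sc): the rounds of the colours `e1 y`. -/
def Stmt_PEALL : Prop :=
  ∀ (g δ cE : ℝ) (l : ℕ), 0 < g → g ≤ 1 / 10 → 0 < δ → 0 < cE → 2 ≤ l →
    ∃ (K0 : ℕ) (δe : ℝ), 0 < δe ∧ ∀ K1 : ℕ, K0 ≤ K1 → ∃ m0 : ℕ, ∀ m r K S : ℕ, m0 ≤ m →
    ∃ (σ ε0 δ2 : ℝ) (d0 : ℕ), 0 < σ ∧ 0 < ε0 ∧ 0 < δ2 ∧
    ∀ {V : Type u} [Fintype V] (G : SimpleGraph V) (d k w W1 ν : ℕ) (c1 : ℝ) (UH : Finset V)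
      (c0 : V → Fin k) (EH : SimpleGraph V) (tu : V → Fin k) (lab : V → Lh l m r K K1 S)
      (e : Ix m w → Fin k) (τ : Fin w → Option (ZMod 3)) (ρ : Fin w → ZMod 3)
      (e1 : Fin W1 → Fin k) (sy : Fin W1 → Fin (K1 + 1) × Fin (K1 + 1)) (tp : V → ZMod 3)
      (c : V → Fin k) (wv : V → Fin k → V) (Nd M : Ix m w → SimpleGraph V)
      (O : Ix m w → Finset V) (Kk : Fin W1 → SimpleGraph V), d0 ≤ d → BL g ε0 G d →
      LabP G d σ c1 lab → EndCap g δ G d lab → EndSX cE G d lab → HPre G UH c0 EH tu →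
      Function.Injective e1 → UPar G d δ2 UH c0 tu lab e τ e1 sy tp c wv →
      NDec ν G UH lab τ Nd → P0R g G d UH c0 tu lab e τ ρ e1 tp c wv Nd M O →
      Lft G UH lab sy Nd M Kk → (2 * (m : ℝ) + 1) * m * w ≤ d →
      (∀ i, (3 * (2 * (m : ℝ) + 1)) * (m * (univ.filter (fun s => ρ s = i)).card) ≤ d) →
      (W1 : ℝ) ≤ δe * d →
      ∃ (M1 : Fin W1 → SimpleGraph V) (O1 : Fin W1 → Finset V),
        PeR G UH c0 tu lab e τ e1 tp wv Kk M O M1 O1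

/-- ASM (from `MP_db9399_lu.stmt_LEMU`, once for every part): the total colouring. `d + 2` colours
are used, the colours of `H` are arbitrary; `htp`: the type of `u` is a palette without its
colours. -/
def Stmt_ASM : Prop :=
  ∀ {V : Type u} [Fintype V] {l m r K K1 S : ℕ} (g δ : ℝ) (G : SimpleGraph V)
    (d k w W1 ν : ℕ) (UH : Finset V) (c0 : V → Fin k) (EH : SimpleGraph V) (tu : V → Fin k)
    (lab : V → Lh l m r K K1 S) (e : Ix m w → Fin k) (τ : Fin w → Option (ZMod 3))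
    (ρ : Fin w → ZMod 3) (e1 : Fin W1 → Fin k) (sy : Fin W1 → Fin (K1 + 1) × Fin (K1 + 1))
    (tp : V → ZMod 3) (pal : Fin m × Fin w → Fin (r + 1)) (c : V → Fin k)
    (wv : V → Fin k → V) (Nd M : Ix m w → SimpleGraph V) (O : Ix m w → Finset V)
    (Kk M1 : Fin W1 → SimpleGraph V) (O1 : Fin W1 → Finset V),
    3 ≤ l → (∀ v, (nb G v).card ≤ d) → (2 * m + 1) * (m * w) + W1 = d + 2 →
    HPre G UH c0 EH tu → Function.Injective e → Function.Injective e1 → (∀ x y, e x ≠ e1 y) →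
    (∀ u ∈ UH, ∀ x, τ x.2.2 = some (tp u) → e x ≠ c0 u ∧ e x ≠ tu u) →
    (∀ s, τ s ≠ some (ρ s)) →
    VCol G UH c0 lab e τ pal c → UPar G d δ UH c0 tu lab e τ e1 sy tp c wv →
    NDec ν G UH lab τ Nd → P0R g G d UH c0 tu lab e τ ρ e1 tp c wv Nd M O →
    Lft G UH lab sy Nd M Kk → PeR G UH c0 tu lab e τ e1 tp wv Kk M O M1 O1 →
    ∃ t : V → V → Fin k, Tot G c t ∧ ∀ v v', EH.Adj v v' → t v v' = tu v

/-! ## The theorem -/

/-- NRM: near-regular graphs (all blocks). -/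
def Stmt_NRM : Prop :=
  ∀ g : ℝ, 0 < g → g ≤ 1 / 10 → ∃ (ε0 : ℝ) (d0 : ℕ), 0 < ε0 ∧
    ∀ {V : Type u} [Fintype V] (G : SimpleGraph V) (d k : ℕ) (UH : Finset V)
      (c0 : V → Fin k) (EH : SimpleGraph V) (tu : V → Fin k),
      d0 ≤ d → d + 2 ≤ k → BL g ε0 G d → HPre G UH c0 EH tu →
      ∃ (c : V → Fin k) (t : V → V → Fin k), Tot G c t ∧ (∀ v ∈ UH, c v = c0 v) ∧
        ∀ v v', EH.Adj v v' → t v v' = tu v

/-- THE THEOREM. -/
def Stmt_MAIN : Prop :=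
  ∀ g : ℝ, 0 < g → ∃ d0 : ℕ, ∀ (V : Type u) [Fintype V] (G : SimpleGraph V)
    [DecidableRel G.Adj] (k : ℕ), d0 ≤ G.maxDegree →
    (∀ S T : Finset V, Disjoint S T → (∀ t ∈ T, (1 - g) * G.maxDegree ≤ (G.degree t : ℝ)) →
      (S.card : ℝ) ≤ (1 + g) * T.card →
      g * G.maxDegree * T.card ≤ ((G.interedges T (univ \ S)).card : ℝ)) →
    (∀ C : Finset V, (∀ v ∈ C, (1 - g) * G.maxDegree ≤ (G.degree v : ℝ)) →
      (C.card : ℝ) ≤ (1 + g) * G.maxDegree →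
      g * G.maxDegree * C.card ≤ ((G.interedges C (univ \ C)).card : ℝ)) →
    G.maxDegree + 2 ≤ k →
    ∀ H : G.Subgraph, IsDistThreeMatching H → ∀ (c₀ : V → Fin k) (t₀ : Sym2 V → Fin k),
      IsTotalColoring H.spanningCoe c₀ t₀ →
      ∃ (c : V → Fin k) (t : Sym2 V → Fin k), IsTotalColoring G c t ∧
        (∀ v ∈ H.verts, c v = c₀ v) ∧ ∀ e ∈ H.edgeSet, t e = t₀ e

/-- FIND (compare FIND of LC). -/
def Stmt_FIND : Prop := Stmt_NRM.{u} → MP_db9399_lc.Stmt_EMBB.{u} → Stmt_MAIN.{u}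

end Pool.Agent.Work.MP_db9399_lh
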